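import Mathlib

/-!
Trace bounds for banded Toeplitz-Hessenberg substochastic matrices: the implication
`Tr A^l ≤ 1` for `l ≤ k + 1` implies `Tr A^l ≤ 1` for all `l` holds for all sizes `n` if and only if
`k ≤ 1`. For `k = 2`, `n = 3` a counterexample is the cyclic matrix with diagonal entries `1/3` and
superdiagonal and corner entries `2/3`: the traces of its powers are `1, 1/3, 1, 11/9, ...`.
-/

set_option autoImplicit false

open Matrix Finset

namespace Pool.Agent.Results.MP_e73184_al.TraceBoundFails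

/-- The admissible matrices of the problem: nonnegative substochastic `n × n` matrices with zero
entries above the first superdiagonal and below the `k`-th subdiagonal, with constant diagonals on
and below the main diagonal. -/
structure Admissible (n k : ℕ) (A : Matrix (Fin n) (Fin n) ℝ) : Prop where
  nonneg : ∀ i j, 0 ≤ A i j
  col : ∀ j, ∑ i, A i j ≤ 1
  row : ∀ i, ∑ j, A i j ≤ 1
  upper : ∀ i j : Fin n, (i : ℕ) + 2 ≤ j → A i j = 0
  lower : ∀ i j : Fin n, (j : ℕ) + k < i → A i j = 0
  toeplitz : ∃ c : ℕ → ℝ, (∀ l ≤ k, 0 ≤ c l) ∧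
    ∀ l ≤ k, ∀ i j : Fin n, (i : ℕ) = j + l → A i j = c l

section Counterexample

/-- The cyclic permutation matrix. -/
def P (k : ℕ) : Matrix (Fin (k + 1)) (Fin (k + 1)) ℝ := fun i j => if j = i + 1 then 1 else 0

theorem P_pow (k m : ℕ) (i j : Fin (k + 1)) :
    (P k ^ m) i j = if j = i + m • (1 : Fin (k + 1)) then 1 else 0 := by
  induction m generalizing j with
  | zero =>
    rw [pow_zero, zero_nsmul, add_zero, Matrix.one_apply]
    simp only [eq_comm]
  | succ m ih =>
    rw [pow_succ, Matrix.mul_apply]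
    simp_rw [ih]
    simp only [ite_mul, one_mul, zero_mul, Finset.sum_ite_eq', Finset.mem_univ, if_true]
    unfold P
    rw [succ_nsmul, add_assoc]

theorem val_nsmul_one (k m : ℕ) : ((m • (1 : Fin (k + 2)) : Fin (k + 2)) : ℕ) = m % (k + 2) := by
  induction m with
  | zero => simp
  | succ m ih =>
    rw [succ_nsmul, Fin.val_add, ih]
    simp [Nat.add_mod]

theorem trace_P_pow (k m : ℕ) :
    (P (k + 1) ^ m).trace = if (k + 2) ∣ m then ((k : ℝ) + 2) else 0 := by
  unfold Matrix.trace
  simp only [Matrix.diag_apply, P_pow]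
  have h : ∀ i : Fin (k + 1 + 1), (i = i + m • (1 : Fin (k + 1 + 1))) ↔ (k + 2) ∣ m := by
    intro i
    rw [left_eq_add, ← Fin.val_eq_zero_iff, val_nsmul_one, Nat.dvd_iff_mod_eq_zero]
  simp only [h]
  split_ifs with h1
  · simp
    ring
  · simp

theorem trace_pow_add (k : ℕ) (a y : ℝ) (l : ℕ) :
    ((a • (1 : Matrix (Fin (k + 2)) (Fin (k + 2)) ℝ) + y • P (k + 1)) ^ l).trace
      = ∑ m ∈ range (l + 1), a ^ (l - m) * y ^ m * (l.choose m)
        * (if (k + 2) ∣ m then ((k : ℝ) + 2) else 0) := by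
  have hc : Commute (y • P (k + 1)) (a • (1 : Matrix (Fin (k + 2)) (Fin (k + 2)) ℝ)) :=
    ((Commute.one_right _).smul_right a).smul_left y
  have e0 : a • (1 : Matrix (Fin (k + 2)) (Fin (k + 2)) ℝ) + y • P (k + 1)
      = y • P (k + 1) + a • (1 : Matrix (Fin (k + 2)) (Fin (k + 2)) ℝ) := add_comm _ _
  rw [e0, hc.add_pow, Matrix.trace_sum]
  refine Finset.sum_congr rfl fun m _ => ?_
  rw [smul_pow, smul_pow, one_pow, ← trace_P_pow]
  have e : y ^ m • P (k + 1) ^ m * a ^ (l - m) • (1 : Matrix (Fin (k + 2)) (Fin (k + 2)) ℝ)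
      * ((l.choose m : ℕ) : Matrix (Fin (k + 2)) (Fin (k + 2)) ℝ)
      = (a ^ (l - m) * y ^ m * (l.choose m : ℝ)) • P (k + 1) ^ m := by
    rw [Matrix.mul_smul, Matrix.mul_one, smul_smul, ← nsmul_eq_mul', ← Nat.cast_smul_eq_nsmul ℝ,
      smul_smul]
    congr 1
    ring
  rw [e, Matrix.trace_smul, smul_eq_mul]

/-- The admissible matrix. -/
theorem admissible_cyc (k : ℕ) {a y : ℝ} (ha : 0 ≤ a) (hy : 0 ≤ y) (hay : a + y ≤ 1) :
    Admissible (k + 3) (k + 2) (a • (1 : Matrix (Fin (k + 3)) (Fin (k + 3)) ℝ) + y • P (k + 2)) := by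
  have hent : ∀ i j : Fin (k + 3),
      (a • (1 : Matrix (Fin (k + 3)) (Fin (k + 3)) ℝ) + y • P (k + 2)) i j
        = (if i = j then a else 0) + (if j = i + 1 then y else 0) := by
    intro i j
    simp only [Matrix.add_apply, Matrix.smul_apply, Matrix.one_apply, P, smul_eq_mul, mul_ite,
      mul_one, mul_zero]
  have hval : ∀ i : Fin (k + 3),
      ((i + 1 : Fin (k + 3)) : ℕ) = (if (i : ℕ) = k + 2 then (0 : ℕ) else (i : ℕ) + 1) := by
    intro i
    have := i.isLt
    rw [Fin.val_add]
    split_ifs with h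
    · rw [h]
      simp
    · have h1 : ((1 : Fin (k + 3)) : ℕ) = 1 := by simp
      rw [h1, Nat.mod_eq_of_lt (by omega)]
  refine ⟨fun i j => ?_, fun j => ?_, fun i => ?_, fun i j h => ?_, fun i j h => ?_, ?_⟩
  · rw [hent]
    positivity
  · simp_rw [hent]
    rw [Finset.sum_add_distrib]
    have h1 : ∑ i : Fin (k + 3), (if i = j then a else 0) = a := by simp
    have h2 : ∑ i : Fin (k + 3), (if j = i + 1 then y else 0) = y := by
      have : ∀ i : Fin (k + 3), (j = i + 1) ↔ (i = j - 1) := fun i =>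
        ⟨fun h => by rw [h, add_sub_cancel_right], fun h => by rw [h, sub_add_cancel]⟩
      simp only [this]
      simp
    rw [h1, h2]
    exact hay
  · simp_rw [hent]
    rw [Finset.sum_add_distrib]
    simp only [Finset.sum_ite_eq, Finset.sum_ite_eq', Finset.mem_univ, if_true]
    exact hay
  · rw [hent, if_neg, if_neg, add_zero]
    · intro h1
      have h2 := congrArg Fin.val h1
      rw [hval] at h2
      split_ifs at h2 <;> omega
    · intro h1
      rw [h1] at h
      omega
  · have := i.isLt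
    omega
  · refine ⟨fun l => if l = 0 then a else if l = k + 2 then y else 0, fun l _ => ?_,
      fun l hl i j hij => ?_⟩
    · simp only
      split_ifs <;> positivity
    · rw [hent]
      simp only
      have hi := i.isLt
      by_cases h0 : l = 0
      · have hij' : i = j := Fin.ext (by omega)
        rw [if_pos h0, if_pos hij', if_neg, add_zero]
        intro h1
        have h2 := congrArg Fin.val h1
        rw [hval] at h2
        split_ifs at h2 <;> omega
      · have hne : i ≠ j := fun h => by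
          rw [h] at hij
          omega
        rw [if_neg h0, if_neg hne, zero_add]
        by_cases h1 : l = k + 2
        · rw [if_pos h1, if_pos]
          refine Fin.ext ?_
          rw [hval, if_pos (by omega)]
          omega
        · rw [if_neg h1, if_neg]
          intro h2
          have h3 := congrArg Fin.val h2
          rw [hval] at h3
          split_ifs at h3 <;> omega

theorem y_bound (k : ℕ) :
    (1 - ((1 : ℝ) / (k + 3)) ^ (k + 2)) / (k + 3) ≤ (1 - 1 / ((k : ℝ) + 3)) ^ (k + 3) := by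
  rcases Nat.eq_zero_or_pos k with rfl | hk
  · norm_num
  have hk1 : (1 : ℝ) ≤ k := by exact_mod_cast hk
  have hN : (0 : ℝ) < k + 3 := by positivity
  have h1 : (1 - ((1 : ℝ) / (k + 3)) ^ (k + 2)) / (k + 3) ≤ 1 / (k + 3) := by
    have : 0 ≤ ((1 : ℝ) / (k + 3)) ^ (k + 2) := by positivity
    gcongr
    linarith
  refine h1.trans ?_
  have h2 := one_add_mul_le_pow (a := -(1 / ((k : ℝ) + 3))) (by
    have : 1 / ((k : ℝ) + 3) ≤ 1 := by
      rw [div_le_one hN]; linarith
    linarith) 2
  have h3 := one_add_mul_le_pow (a := -(1 / ((k : ℝ) + 3))) (by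
    have : 1 / ((k : ℝ) + 3) ≤ 1 := by
      rw [div_le_one hN]; linarith
    linarith) (k + 1)
  have e : (1 - 1 / ((k : ℝ) + 3)) ^ (k + 3)
      = (1 + -(1 / ((k : ℝ) + 3))) ^ 2 * (1 + -(1 / ((k : ℝ) + 3))) ^ (k + 1) := by
    rw [← pow_add, ← sub_eq_add_neg]
    congr 1
    ring
  have h4 : (1 : ℝ) + ((2 : ℕ) : ℝ) * -(1 / ((k : ℝ) + 3)) = (k + 1) / (k + 3) := by
    push_cast
    field_simp
    ring
  have h5 : (1 : ℝ) + ((k + 1 : ℕ) : ℝ) * -(1 / ((k : ℝ) + 3)) = 2 / (k + 3) := by
    push_cast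
    field_simp
    ring
  rw [h4] at h2
  rw [h5] at h3
  rw [e]
  have h6 := mul_le_mul h2 h3 (by positivity) ((by positivity : (0 : ℝ) ≤ (k + 1) / (k + 3)).trans h2)
  refine le_trans ?_ h6
  rw [div_mul_div_comm, div_le_div_iff₀ hN (by positivity)]
  nlinarith

theorem counterexample (k : ℕ) : ∃ A : Matrix (Fin (k + 3)) (Fin (k + 3)) ℝ,
    Admissible (k + 3) (k + 2) A ∧ (∀ l, 1 ≤ l → l ≤ k + 3 → (A ^ l).trace ≤ 1) ∧
      1 < (A ^ (k + 4)).trace := by
  have hN : (0 : ℝ) < k + 3 := by positivity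
  have hdvd : k + 1 + 2 ∣ k + 3 := ⟨1, by omega⟩
  set a : ℝ := 1 / (k + 3) with ha
  have ha0 : 0 ≤ a := by positivity
  have ha1 : a ≤ 1 := by
    rw [ha, div_le_one hN]
    linarith [(Nat.cast_nonneg k : (0 : ℝ) ≤ k)]
  have haN : a * (k + 3) = 1 := by rw [ha]; field_simp
  set x : ℝ := (1 - a ^ (k + 2)) / (k + 3) with hx
  have hx0 : 0 ≤ x := by
    have : a ^ (k + 2) ≤ 1 := pow_le_one₀ ha0 ha1
    rw [hx]
    exact div_nonneg (by linarith) hN.le
  have hxN : x * (k + 3) = 1 - a ^ (k + 2) := by rw [hx]; field_simp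
  set y : ℝ := x ^ (((k + 3 : ℕ) : ℝ)⁻¹) with hy
  have hy0 : 0 ≤ y := Real.rpow_nonneg hx0 _
  have hyx : y ^ (k + 3) = x := Real.rpow_inv_natCast_pow hx0 (by omega)
  have hy1 : y ≤ 1 - a := by
    refine (pow_le_pow_iff_left₀ hy0 (by linarith) (n := k + 3) (by omega)).1 ?_
    rw [hyx]
    exact y_bound k
  refine ⟨a • 1 + y • P (k + 2), admissible_cyc k ha0 hy0 (by linarith), fun l hl1 hl2 => ?_, ?_⟩
  · rw [trace_pow_add (k + 1)]
    have hz : ∀ m ∈ range (l + 1), m ≠ 0 → m ≠ k + 3 → a ^ (l - m) * y ^ m * (l.choose m)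
        * (if (k + 1 + 2) ∣ m then (((k + 1 : ℕ) : ℝ) + 2) else 0) = 0 := by
      intro m hm h0 h1
      rw [if_neg, mul_zero]
      intro hd
      have := Nat.le_of_dvd (Nat.pos_of_ne_zero h0) hd
      have := Finset.mem_range.1 hm
      omega
    rcases hl2.lt_or_eq with h | h
    · rw [Finset.sum_eq_single_of_mem 0 (by simp) (fun m hm h0 => hz m hm h0 (by
        have := Finset.mem_range.1 hm
        omega))]
      simp only [tsub_zero, pow_zero, mul_one, Nat.choose_zero_right, Nat.cast_one, dvd_zero,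
        if_true]
      have h2 : a ^ l ≤ a ^ 1 := pow_le_pow_of_le_one ha0 ha1 hl1
      rw [pow_one] at h2
      push_cast
      nlinarith
    · subst h
      rw [Finset.sum_range_succ, Finset.sum_eq_single_of_mem 0 (by simp) (fun m hm h0 => hz m (by
        have := Finset.mem_range.1 hm
        exact Finset.mem_range.2 (by omega)) h0 (by
        have := Finset.mem_range.1 hm
        omega))]
      simp only [tsub_zero, pow_zero, mul_one, Nat.choose_zero_right, Nat.cast_one, dvd_zero,
        if_true, tsub_self, Nat.choose_self, one_mul]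
      rw [if_pos hdvd, hyx]
      push_cast
      have e : a ^ (k + 3) * ((k : ℝ) + 1 + 2) + x * ((k : ℝ) + 1 + 2)
          = a ^ (k + 2) * (a * (k + 3)) + x * (k + 3) := by ring
      rw [e, haN, hxN]
      linarith
  · rw [trace_pow_add (k + 1), Finset.sum_range_succ, Finset.sum_range_succ,
      Finset.sum_eq_single_of_mem 0 (by simp) (fun m hm h0 => by
        rw [if_neg, mul_zero]
        intro hd
        have := Nat.le_of_dvd (Nat.pos_of_ne_zero h0) hd
        have := Finset.mem_range.1 hm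
        omega)]
    have h1 : ¬ (k + 1 + 2 ∣ k + 4) := by
      intro h
      have h2 : k + 1 + 2 ∣ (k + 4) - (k + 1 + 2) := Nat.dvd_sub h dvd_rfl
      have h3 : (k + 4) - (k + 1 + 2) = 1 := by omega
      rw [h3, Nat.dvd_one] at h2
      omega
    rw [if_neg h1, mul_zero, add_zero, if_pos hdvd]
    simp only [tsub_zero, pow_zero, mul_one, Nat.choose_zero_right, Nat.cast_one, dvd_zero,
      if_true]
    have h2 : k + 4 - (k + 3) = 1 := by omega
    have h3 : (k + 4).choose (k + 3) = k + 4 := Nat.choose_succ_self_right (k + 3)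
    rw [h2, pow_one, hyx, h3]
    push_cast
    have e : a ^ (k + 4) * ((k : ℝ) + 1 + 2) + a * x * (k + 4) * ((k : ℝ) + 1 + 2)
        = a ^ (k + 3) * (a * (k + 3)) + (a * (k + 3)) * x * (k + 3) + a * (x * (k + 3)) := by ring
    rw [e, haN, one_mul, hxN]
    have h4 : a ^ (k + 2) < a := by
      have h5 : a ^ (k + 2) ≤ a ^ 2 := pow_le_pow_of_le_one ha0 ha1 (by omega)
      have ha2 : 0 < a := by positivity
      have ha3 : a < 1 := by
        rw [ha, div_lt_one hN]
        linarith [(Nat.cast_nonneg k : (0 : ℝ) ≤ k)]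
      nlinarith
    have h5 : a ^ (k + 3) = a * a ^ (k + 2) := by ring
    rw [h5]
    nlinarith

end Counterexample

section Positive

theorem trace_pow_eq {n : ℕ} {B : Matrix (Fin n) (Fin n) ℝ} (hB : B.IsHermitian) (l : ℕ) :
    (B ^ l).trace = ∑ i, hB.eigenvalues i ^ l := by
  conv_lhs => rw [hB.spectral_theorem, ← map_pow, Matrix.diagonal_pow,
    Unitary.conjStarAlgAut_apply, Matrix.trace_mul_cycle, Unitary.coe_star_mul_self, one_mul,
    Matrix.trace_diagonal]
  rfl

theorem trace_sym_le {n : ℕ} {B : Matrix (Fin n) (Fin n) ℝ} (hB : B.IsHermitian) {l : ℕ}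
    (hl : 2 ≤ l) : (B ^ l).trace ≤ Real.sqrt (B ^ 2).trace ^ l := by
  rw [trace_pow_eq hB, trace_pow_eq hB]
  set M := Real.sqrt (∑ i, hB.eigenvalues i ^ 2) with hM
  have hM2 : M ^ 2 = ∑ i, hB.eigenvalues i ^ 2 :=
    Real.sq_sqrt (Finset.sum_nonneg fun i _ => sq_nonneg _)
  have hM0 : 0 ≤ M := Real.sqrt_nonneg _
  have hle : ∀ i, |hB.eigenvalues i| ≤ M := by
    intro i
    refine Real.abs_le_sqrt ?_
    exact Finset.single_le_sum (f := fun i => hB.eigenvalues i ^ 2) (fun i _ => sq_nonneg _)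
      (Finset.mem_univ i)
  obtain ⟨m, rfl⟩ := Nat.exists_eq_add_of_le hl
  calc ∑ i, hB.eigenvalues i ^ (2 + m) ≤ ∑ i, M ^ m * hB.eigenvalues i ^ 2 := by
        refine Finset.sum_le_sum fun i _ => ?_
        calc hB.eigenvalues i ^ (2 + m) ≤ |hB.eigenvalues i ^ (2 + m)| := le_abs_self _
          _ = |hB.eigenvalues i| ^ m * hB.eigenvalues i ^ 2 := by
            rw [abs_pow, pow_add, sq_abs, mul_comm]
          _ ≤ M ^ m * hB.eigenvalues i ^ 2 := by
            gcongr
            exact hle i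
    _ = M ^ (2 + m) := by
      rw [← Finset.mul_sum, ← hM2]
      ring

theorem trace_tri_le {n : ℕ} {A : Matrix (Fin n) (Fin n) ℝ}
    (hpos : ∀ i j : Fin n, (i : ℕ) + 1 = j → 0 < A i j ∧ 0 < A j i)
    (hz : ∀ i j : Fin n, (i : ℕ) + 2 ≤ j → A i j = 0 ∧ A j i = 0) {l : ℕ} (hl : 2 ≤ l) :
    (A ^ l).trace ≤ Real.sqrt (A ^ 2).trace ^ l := by
  set a : ℕ → ℝ := fun m => if h : m + 1 < n then
    Real.sqrt (A ⟨m, by omega⟩ ⟨m + 1, h⟩ / A ⟨m + 1, h⟩ ⟨m, by omega⟩) else 1 with ha
  have ha0 : ∀ m, 0 < a m := by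
    intro m
    simp only [ha]
    split_ifs with h
    · have := hpos ⟨m, by omega⟩ ⟨m + 1, h⟩ rfl
      exact Real.sqrt_pos.2 (div_pos this.1 this.2)
    · exact one_pos
  set d : ℕ → ℝ := fun m => ∏ r ∈ range m, a r with hd
  have hd0 : ∀ m, 0 < d m := fun m => Finset.prod_pos fun r _ => ha0 r
  have hds : ∀ m, d (m + 1) = d m * a m := fun m => Finset.prod_range_succ _ _
  have key : ∀ i j : Fin n, (i : ℕ) + 1 = j → d i ^ 2 * A i j = d j ^ 2 * A j i := by
    intro i j hij
    have h1 := hpos i j hij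
    have h2 : a i ^ 2 = A i j / A j i := by
      have h3 : (i : ℕ) + 1 < n := by rw [hij]; exact j.isLt
      simp only [ha]
      rw [dif_pos h3]
      have e1 : (⟨(i : ℕ), by omega⟩ : Fin n) = i := rfl
      have e2 : (⟨(i : ℕ) + 1, h3⟩ : Fin n) = j := Fin.ext hij
      rw [e1, e2, Real.sq_sqrt (div_pos h1.1 h1.2).le]
    rw [← hij, hds, mul_pow, h2]
    have := h1.2.ne'
    field_simp
  have hsym : ∀ i j : Fin n, d i ^ 2 * A i j = d j ^ 2 * A j i := by
    intro i j
    rcases lt_trichotomy (i : ℕ) j with h | h | h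
    · rcases Nat.lt_or_ge ((i : ℕ) + 1) j with h' | h'
      · have := hz i j h'
        rw [this.1, this.2, mul_zero, mul_zero]
      · exact key i j (by omega)
    · rw [Fin.ext h]
    · rcases Nat.lt_or_ge ((j : ℕ) + 1) i with h' | h'
      · have := hz j i h'
        rw [this.1, this.2, mul_zero, mul_zero]
      · exact (key j i (by omega)).symm
  set B : Matrix (Fin n) (Fin n) ℝ := fun i j => d i * A i j * (d j)⁻¹ with hB
  have hBh : B.IsHermitian := by
    refine Matrix.IsHermitian.ext fun i j => ?_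
    rw [star_trivial]
    simp only [hB]
    have h1 := hsym j i
    have h2 := (hd0 i).ne'
    have h3 := (hd0 j).ne'
    field_simp
    linarith
  have hconj : ∀ l, (B ^ l).trace = (A ^ l).trace := by
    intro l
    have hs : SemiconjBy (Matrix.diagonal fun i : Fin n => d i) A B := by
      show Matrix.diagonal (fun i : Fin n => d i) * A = B * Matrix.diagonal (fun i : Fin n => d i)
      ext i j
      rw [Matrix.diagonal_mul, Matrix.mul_diagonal]
      simp only [hB]
      have h3 := (hd0 j).ne'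
      field_simp
    have hp := hs.pow_right l
    have hp' : Matrix.diagonal (fun i : Fin n => d i) * A ^ l
      = B ^ l * Matrix.diagonal (fun i : Fin n => d i) := hp
    have hinv : Matrix.diagonal (fun i : Fin n => d i) * Matrix.diagonal (fun i : Fin n => (d i)⁻¹)
        = 1 := by
      rw [Matrix.diagonal_mul_diagonal, ← Matrix.diagonal_one]
      congr 1
      funext i
      exact mul_inv_cancel₀ (hd0 i).ne'
    calc (B ^ l).trace = (B ^ l * (Matrix.diagonal (fun i : Fin n => d i)
          * Matrix.diagonal (fun i : Fin n => (d i)⁻¹))).trace := by rw [hinv, mul_one]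
      _ = (Matrix.diagonal (fun i : Fin n => d i) * A ^ l
          * Matrix.diagonal (fun i : Fin n => (d i)⁻¹)).trace := by rw [← mul_assoc, ← hp']
      _ = (A ^ l).trace := by
        simp only [Matrix.trace, Matrix.diag_apply, Matrix.mul_diagonal, Matrix.diagonal_mul]
        refine Finset.sum_congr rfl fun i _ => ?_
        have h3 := (hd0 i).ne'
        field_simp
  rw [← hconj, ← hconj]
  exact trace_sym_le hBh hl

theorem trace_tri_le' {n : ℕ} {A : Matrix (Fin n) (Fin n) ℝ} (hA : ∀ i j, 0 ≤ A i j)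
    (hz : ∀ i j : Fin n, (i : ℕ) + 2 ≤ j → A i j = 0 ∧ A j i = 0) {l : ℕ} (hl : 2 ≤ l) :
    (A ^ l).trace ≤ Real.sqrt (A ^ 2).trace ^ l := by
  set J : Matrix (Fin n) (Fin n) ℝ := fun i j =>
    if (i : ℕ) + 1 = j ∨ (j : ℕ) + 1 = i then 1 else 0 with hJ
  have hc : Continuous fun ε : ℝ => A + ε • J := by fun_prop
  have h1 : Continuous fun ε : ℝ => ((A + ε • J) ^ l).trace := (hc.pow l).matrix_trace
  have h2 : Continuous fun ε : ℝ => Real.sqrt ((A + ε • J) ^ 2).trace ^ l :=
    (Real.continuous_sqrt.comp (hc.pow 2).matrix_trace).pow l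
  have h3 := h1.tendsto 0
  have h4 := h2.tendsto 0
  simp only [zero_smul, add_zero] at h3 h4
  refine le_of_tendsto_of_tendsto (h3.mono_left (nhdsWithin_le_nhds (s := Set.Ioi 0)))
    (h4.mono_left nhdsWithin_le_nhds) ?_
  filter_upwards [self_mem_nhdsWithin] with ε hε
  have hε' : 0 < ε := hε
  refine trace_tri_le (fun i j hij => ?_) (fun i j hij => ?_) hl
  · have e1 : J i j = 1 := by simp only [hJ]; rw [if_pos (Or.inl hij)]
    have e2 : J j i = 1 := by simp only [hJ]; rw [if_pos (Or.inr hij)]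
    constructor
    · rw [Matrix.add_apply, Matrix.smul_apply, e1, smul_eq_mul, mul_one]
      exact add_pos_of_nonneg_of_pos (hA i j) hε'
    · rw [Matrix.add_apply, Matrix.smul_apply, e2, smul_eq_mul, mul_one]
      exact add_pos_of_nonneg_of_pos (hA j i) hε'
  · have e1 : J i j = 0 := by simp only [hJ]; rw [if_neg (by omega)]
    have e2 : J j i = 0 := by simp only [hJ]; rw [if_neg (by omega)]
    rw [Matrix.add_apply, Matrix.smul_apply, Matrix.add_apply, Matrix.smul_apply, e1, e2,
      (hz i j hij).1, (hz i j hij).2]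
    simp

theorem positive {n k : ℕ} (hk : k ≤ 1) {A : Matrix (Fin n) (Fin n) ℝ} (hA : Admissible n k A)
    (h : ∀ l, 1 ≤ l → l ≤ k + 1 → (A ^ l).trace ≤ 1) (l : ℕ) (hl : 1 ≤ l) : (A ^ l).trace ≤ 1 := by
  rcases hl.eq_or_lt with rfl | hl
  · exact h 1 le_rfl (by omega)
  have hz : ∀ i j : Fin n, (i : ℕ) + 2 ≤ j → A i j = 0 ∧ A j i = 0 := fun i j hij =>
    ⟨hA.upper i j hij, hA.lower j i (by omega)⟩
  have h2 : (A ^ 2).trace ≤ 1 := by
    rcases Nat.eq_zero_or_pos k with rfl | hk0
    · have h1 : A.trace ≤ 1 := by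
        have := h 1 le_rfl le_rfl
        rwa [pow_one] at this
      have hd : ∀ i, (A ^ 2) i i = A i i ^ 2 := by
        intro i
        rw [sq, Matrix.mul_apply, Finset.sum_eq_single_of_mem i (Finset.mem_univ i), sq]
        intro j _ hij
        rcases lt_or_gt_of_ne (fun e : (i : ℕ) = j => hij (Fin.ext e).symm) with h' | h'
        · rw [hA.lower j i (by omega), mul_zero]
        · rw [hA.lower i j (by omega), zero_mul]
      have hle : ∀ i, A i i ≤ 1 := fun i =>
        (Finset.single_le_sum (f := fun j => A i j) (fun j _ => hA.nonneg i j)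
          (Finset.mem_univ i)).trans (hA.row i)
      refine le_trans ?_ h1
      unfold Matrix.trace
      refine Finset.sum_le_sum fun i _ => ?_
      rw [Matrix.diag_apply, Matrix.diag_apply, hd]
      nlinarith [hA.nonneg i i, hle i]
    · exact h 2 (by omega) (by omega)
  refine (trace_tri_le' hA.nonneg hz hl).trans (pow_le_one₀ (Real.sqrt_nonneg _) ?_)
  exact Real.sqrt_le_one.2 h2

end Positive

/-- The answer to the question is negative: `Tr A^l ≤ 1` for `1 ≤ l ≤ k + 1` does not imply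
`Tr A^l ≤ 1` for all `l ≥ 1`, for admissible matrices. More precisely, for a given `k` the implication
holds for all admissible matrices of all sizes if and only if `k ≤ 1`. (For every `k ≥ 2` there is a
counterexample of size `n = k + 1`, with `Tr A^(k + 2) > 1`; for `k = 2` it is the matrix with
diagonal entries `1/3` and entries `2/3` at the places `(1, 2), (2, 3), (3, 1)`.) -/
theorem result (k : ℕ) :
    (∀ n : ℕ, 1 ≤ n → ∀ A : Matrix (Fin n) (Fin n) ℝ, Admissible n k A →
      (∀ l, 1 ≤ l → l ≤ k + 1 → (A ^ l).trace ≤ 1) → ∀ l, 1 ≤ l → (A ^ l).trace ≤ 1) ↔ k ≤ 1 := by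
  constructor
  · intro h
    by_contra hk
    obtain ⟨m, rfl⟩ := Nat.exists_eq_add_of_le (show 2 ≤ k by omega)
    obtain ⟨A, hA, h1, h2⟩ := counterexample m
    have e : 2 + m = m + 2 := by omega
    rw [e] at h
    have := h (m + 3) (by omega) A hA (fun l h3 h4 => h1 l h3 (by omega)) (m + 4) (by omega)
    linarith
  · intro hk n _ A hA h l hl
    exact positive hk hA h l hl

end Pool.Agent.Results.MP_e73184_al.TraceBoundFails
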