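import Mathlib

/-!
# Trace bounds for banded Toeplitz-Hessenberg substochastic matrices fail

For `n = 3`, `k = 2` the doubly stochastic matrix `A = (1/3) (I + 2 P)`, `P` a cyclic permutation
matrix, is admissible and has traces `Tr A = 1`, `Tr A² = 1/3`, `Tr A³ = 1`, `Tr A⁴ = 11/9 > 1`.
-/

namespace Pool.Agent.Results.MP_e73184_al.TraceExceedsOne

open Matrix

/-- Admissible matrices (indices start from `0`). -/
structure Admissible (n k : ℕ) (A : Matrix (Fin n) (Fin n) ℝ) : Prop where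
  /-- nonnegative entries -/
  nonneg : ∀ i j, 0 ≤ A i j
  /-- column sums at most `1` -/
  col_sum : ∀ j, ∑ i, A i j ≤ 1
  /-- row sums at most `1` -/
  row_sum : ∀ i, ∑ j, A i j ≤ 1
  /-- above the diagonal, only entries at distance `1` may be nonzero -/
  upper : ∀ i j : Fin n, (i : ℕ) + 2 ≤ j → A i j = 0
  /-- below the diagonal, only entries at distance at most `k` may be nonzero -/
  lower : ∀ i j : Fin n, (j : ℕ) + k < i → A i j = 0
  /-- Toeplitz condition on the lower band -/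
  toeplitz : ∃ c : ℕ → ℝ, (∀ l ≤ k, 0 ≤ c l) ∧
    ∀ l ≤ k, ∀ i j : Fin n, (j : ℕ) + l = i → A i j = c l

/-- The negation of Q1. -/
theorem result : ∃ (n k : ℕ) (A : Matrix (Fin n) (Fin n) ℝ), 1 ≤ n ∧ Admissible n k A ∧
    (∀ l, 1 ≤ l → l ≤ k + 1 → (A ^ l).trace ≤ 1) ∧ ∃ m, k + 1 < m ∧ 1 < (A ^ m).trace := by
  set A : Matrix (Fin 3) (Fin 3) ℝ :=
    !![1 / 3, 2 / 3, 0; 0, 1 / 3, 2 / 3; 2 / 3, 0, 1 / 3] with hA
  have h2 : A ^ 2 = !![1 / 9, 4 / 9, 4 / 9; 4 / 9, 1 / 9, 4 / 9; 4 / 9, 4 / 9, 1 / 9] := by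
    rw [pow_two, hA]
    ext i j
    fin_cases i <;> fin_cases j <;> simp [Matrix.mul_apply, Fin.sum_univ_three] <;> norm_num
  have h3 : A ^ 3 = !![1 / 3, 2 / 9, 4 / 9; 4 / 9, 1 / 3, 2 / 9; 2 / 9, 4 / 9, 1 / 3] := by
    rw [pow_succ, h2, hA]
    ext i j
    fin_cases i <;> fin_cases j <;> simp [Matrix.mul_apply, Fin.sum_univ_three] <;> norm_num
  have h4 : A ^ 4 = !![11 / 27, 8 / 27, 8 / 27; 8 / 27, 11 / 27, 8 / 27;
      8 / 27, 8 / 27, 11 / 27] := by
    rw [pow_succ, h3, hA]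
    ext i j
    fin_cases i <;> fin_cases j <;> simp [Matrix.mul_apply, Fin.sum_univ_three] <;> norm_num
  refine ⟨3, 2, A, by norm_num, ⟨?_, ?_, ?_, ?_, ?_, ?_⟩, ?_, 4, by norm_num, ?_⟩
  · intro i j
    fin_cases i <;> fin_cases j <;> simp [hA] <;> norm_num
  · intro j
    fin_cases j <;> simp [hA, Fin.sum_univ_three] <;> norm_num
  · intro i
    fin_cases i <;> simp [hA, Fin.sum_univ_three] <;> norm_num
  · intro i j h
    fin_cases i <;> fin_cases j <;> simp [hA] at h ⊢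
  · intro i j h
    exfalso
    have := i.isLt
    omega
  · refine ⟨fun l => if l = 0 then 1 / 3 else if l = 2 then 2 / 3 else 0, ?_, ?_⟩
    · intro l _
      beta_reduce
      split_ifs <;> norm_num
    · intro l hl i j h
      have hl' : l = 0 ∨ l = 1 ∨ l = 2 := by omega
      rcases hl' with rfl | rfl | rfl <;> fin_cases i <;> fin_cases j <;> simp [hA] at h ⊢
  · intro l h1 h2'
    have hl' : l = 1 ∨ l = 2 ∨ l = 3 := by omega
    rcases hl' with rfl | rfl | rfl
    · rw [pow_one, hA, Matrix.trace_fin_three]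
      simp
      norm_num
    · rw [h2, Matrix.trace_fin_three]
      simp
      norm_num
    · rw [h3, Matrix.trace_fin_three]
      simp
      norm_num
  · rw [h4, Matrix.trace_fin_three]
    simp
    norm_num

end Pool.Agent.Results.MP_e73184_al.TraceExceedsOne
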